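import Mathlib
import Pool.Agent.Lib.MP_66cbdd_co.Defs
import Pool.Agent.Lib.MP_66cbdd_co.LowerMain

open Pool.Agent.Lib.MP_66cbdd_co

/-- For every `n ≥ 3` and `e > 0`, for all large `L` some finite simple matroid has `L` lines
forming at least `L ^ (3 / 2 - e)` joints of dimension `n`. -/
theorem Pool.Agent.Results.MP_66cbdd_co.Lower.result (n : ℕ) (hn : 3 ≤ n) (e : ℝ) (he : 0 < e) :
    ∃ L0 : ℕ, ∀ L : ℕ, L0 ≤ L →
      ∃ (M : Matroid ℕ) (Λ : Finset (Set ℕ)), M.E.Finite ∧ IsSimple M ∧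
        (∀ l ∈ Λ, IsLine M l) ∧ Λ.card = L ∧
        (L : ℝ) ^ ((3 : ℝ) / 2 - e) ≤ ((joints M n Λ).ncard : ℝ) :=
  Pool.Agent.Lib.MP_66cbdd_co.Lower.lower n hn e he
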