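import Mathlib
import Pool.Agent.Lib.MP_66cbdd_co.Defs
import Pool.Agent.Lib.MP_66cbdd_co.RS3A
import Pool.Agent.Lib.MP_66cbdd_co.RS3B

open Pool.Agent.Lib.MP_66cbdd_co

/-- The largest number of three-dimensional joints of `L` lines in a simple matroid lies between
the Ruzsa-Szemeredi number of `L` and eight times that number. -/
theorem Pool.Agent.Results.MP_66cbdd_co.RuzsaSzemeredi.result (L : ℕ) :
    ruzsaSzemerediNumberNat L ≤ J 3 L ∧ J 3 L ≤ 8 * ruzsaSzemerediNumberNat L := by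
  have hub : 8 * ruzsaSzemerediNumberNat L ∈ upperBounds
      {k | ∃ (M : Matroid ℕ) (Λ : Finset (Set ℕ)), M.E.Finite ∧ IsSimple M ∧
        (∀ l ∈ Λ, IsLine M l) ∧ Λ.card = L ∧ (joints M 3 Λ).ncard = k} := by
    rintro k ⟨M, Λ, hE, hM, hΛ, rfl, rfl⟩
    exact RS3.upper3 hE hM hΛ
  refine ⟨?_, csSup_le' hub⟩
  obtain ⟨M, Λ, hE, hM, hΛ, hL, h⟩ := RS3.lower3 L
  exact h.trans (le_csSup ⟨_, hub⟩ ⟨M, Λ, hE, hM, hΛ, hL, rfl⟩)
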