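import Pool.Agent.Lib.MP_66cbdd_co.Upper

open Pool.Agent.Lib.MP_66cbdd_co

theorem Pool.Agent.Results.MP_66cbdd_co.Upper.result {α : Type*} (n : ℕ) (hn : 4 ≤ n)
    (M : Matroid α) (hE : M.E.Finite) (hM : IsSimple M)
    (Λ : Finset (Set α)) (hΛ : ∀ l ∈ Λ, IsLine M l) :
    ((joints M n Λ).ncard : ℝ) ≤
      8 * (n : ℝ) ^ 3 *
        (Λ.card : ℝ) ^ ((3 * (2 : ℝ) ^ (n - 3) - 1) / (2 * (2 : ℝ) ^ (n - 3) - 1)) :=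
  upper (by omega) hE hM hΛ
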